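import Mathlib
import Pool.Agent.W388.TW.D0

/-! TW-Nzr (helper361): `L(1+it, f × χ) ≠ 0` for `t ≠ 0`, elementary mean-square argument. -/

set_option autoImplicit false

open Complex Filter Topology Set LSeries

namespace W361TW.Nzr

open scoped ArithmeticFunction.vonMangoldt

/-- `a(n) Λ(n) / log n` -/
noncomputable def gg (a : ℕ → ℂ) (n : ℕ) : ℂ := a n * (Λ n : ℂ) / Complex.log n

theorem logMul_gg (a : ℕ → ℂ) (n : ℕ) : logMul (gg a) n = a n * (Λ n : ℂ) := by
  unfold gg logMul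
  rcases Nat.lt_or_ge n 2 with h | h
  · interval_cases n <;> simp
  · have h1 : Complex.log n ≠ 0 := by
      rw [← Complex.natCast_log]
      have : Real.log n ≠ 0 := (Real.log_pos (by exact_mod_cast h)).ne'
      exact_mod_cast this
    field_simp

theorem summ_gg (a : ℕ → ℂ)
    (h : ∀ s : ℂ, 1 < s.re → LSeriesSummable (fun n => a n * (Λ n : ℂ)) s) (s : ℂ)
    (hs : 1 < s.re) : LSeriesSummable (gg a) s := by
  have h2 : 0 < Real.log 2 := Real.log_pos one_lt_two
  refine Summable.of_norm_bounded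
    (g := fun n => (Real.log 2)⁻¹ * ‖term (fun n => a n * (Λ n : ℂ)) s n‖)
    ((h s hs).norm.mul_left _) ?_
  intro n
  rcases Nat.lt_or_ge n 2 with hn | hn
  · interval_cases n
    · simp
    · simp [LSeries.term, gg]
  · have hn0 : n ≠ 0 := by omega
    have hlog : Real.log 2 ≤ Real.log n := Real.log_le_log two_pos (by exact_mod_cast hn)
    rw [LSeries.norm_term_eq, LSeries.norm_term_eq, if_neg hn0, if_neg hn0]
    have e : ‖gg a n‖ = ‖a n * (Λ n : ℂ)‖ * (Real.log n)⁻¹ := by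
      unfold gg
      rw [norm_div, ← Complex.natCast_log, Complex.norm_real, Real.norm_of_nonneg (by linarith),
        div_eq_mul_inv]
    rw [e]
    have h3 : (Real.log n)⁻¹ ≤ (Real.log 2)⁻¹ := inv_anti₀ h2 hlog
    rw [mul_div_assoc', div_eq_mul_inv, div_eq_mul_inv, mul_comm ‖a n * (Λ n : ℂ)‖]
    gcongr

theorem absc_gg (a : ℕ → ℂ)
    (h : ∀ s : ℂ, 1 < s.re → LSeriesSummable (fun n => a n * (Λ n : ℂ)) s) (s : ℂ)
    (hs : 1 < s.re) : abscissaOfAbsConv (gg a) < s.re := by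
  have h1 : abscissaOfAbsConv (gg a) ≤ (1 : ℝ) := by
    refine abscissaOfAbsConv_le_of_forall_lt_LSeriesSummable fun y hy => ?_
    exact summ_gg a h y (by simpa using hy)
  refine lt_of_le_of_lt h1 ?_
  exact_mod_cast hs

theorem log_norm (a : ℕ → ℂ)
    (h : ∀ s : ℂ, 1 < s.re → LSeriesSummable (fun n => a n * (Λ n : ℂ)) s)
    (F : ℂ → ℂ) (hF : ∀ s : ℂ, 1 < s.re → DifferentiableAt ℂ F s)
    (hF0 : ∀ s : ℂ, 1 < s.re → F s ≠ 0)
    (hd : ∀ s : ℂ, 1 < s.re → deriv F s / F s = - LSeries (fun n => a n * (Λ n : ℂ)) s) :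
    ∃ K : ℝ, ∀ s : ℂ, 1 < s.re → Real.log ‖F s‖ = K + (LSeries (gg a) s).re := by
  set U : Set ℂ := {s | 1 < s.re} with hU
  have hUo : IsOpen U := isOpen_lt continuous_const continuous_re
  have hUc : Convex ℝ U := convex_halfSpace_re_gt 1
  set H : ℂ → ℂ := fun s => F s * Complex.exp (- LSeries (gg a) s) with hH
  have hder : ∀ s ∈ U, HasDerivAt H 0 s := by
    intro s hs
    have h1 := LSeries_hasDerivAt (absc_gg a h s hs)
    have h2 : logMul (gg a) = fun n => a n * (Λ n : ℂ) := funext (logMul_gg a)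
    rw [h2] at h1
    have h3 := (hF s hs).hasDerivAt.mul (h1.neg.cexp)
    have h4 := hd s hs
    rw [div_eq_iff (hF0 s hs)] at h4
    have e : deriv F s * cexp ((-LSeries (gg a)) s) + F s * (cexp ((-LSeries (gg a)) s) *
        - -LSeries (fun n => a n * (Λ n : ℂ)) s) = 0 := by
      rw [h4]
      ring
    rw [e] at h3
    exact h3
  have hconst : ∀ s ∈ U, H s = H 2 := by
    intro s hs
    refine hUo.is_const_of_deriv_eq_zero hUc.isPreconnected
      (fun x hx => (hder x hx).differentiableAt.differentiableWithinAt)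
      (fun x hx => (hder x hx).deriv) hs ?_
    simp [hU]
  refine ⟨Real.log ‖H 2‖, fun s hs => ?_⟩
  rw [← hconst s hs, hH]
  simp only
  rw [norm_mul, Complex.norm_exp, Real.log_mul (norm_ne_zero_iff.2 (hF0 s hs))
    (Real.exp_ne_zero _), Real.log_exp]
  simp

/-- the weights -/
noncomputable def w (σ : ℝ) (n : ℕ) : ℝ := Λ n / Real.log n * (n : ℝ) ^ (-(1 + σ))

theorem w_nonneg (σ : ℝ) (n : ℕ) : 0 ≤ w σ n := by
  unfold w
  have h1 : 0 ≤ Λ n := ArithmeticFunction.vonMangoldt_nonneg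
  have h2 : 0 ≤ Real.log n := Real.log_natCast_nonneg n
  positivity

theorem term_gg (a : ℕ → ℂ) (σ t : ℝ) (n : ℕ) :
    term (gg a) (((1 + σ : ℝ) : ℂ) + t * I) n = (w σ n : ℂ) * (a n * (n : ℂ) ^ (-(t * I))) := by
  rcases eq_or_ne n 0 with rfl | hn
  · simp [w]
  · have hn' : (n : ℂ) ≠ 0 := by exact_mod_cast hn
    rw [LSeries.term_of_ne_zero hn, Complex.cpow_add _ _ hn', Complex.cpow_neg]
    unfold gg w
    push_cast
    rw [Complex.ofReal_cpow (Nat.cast_nonneg n)]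
    push_cast
    rw [Complex.cpow_neg]
    field_simp

theorem re_gg (a : ℕ → ℂ)
    (h : ∀ s : ℂ, 1 < s.re → LSeriesSummable (fun n => a n * (Λ n : ℂ)) s) (σ t : ℝ)
    (hσ : 0 < σ) :
    Summable (fun n => w σ n * (a n * (n : ℂ) ^ (-(t * I))).re) ∧
    (LSeries (gg a) (((1 + σ : ℝ) : ℂ) + t * I)).re =
      ∑' n, w σ n * (a n * (n : ℂ) ^ (-(t * I))).re := by
  have hs : 1 < (((1 + σ : ℝ) : ℂ) + t * I).re := by simp [hσ]
  have h1 : Summable (term (gg a) (((1 + σ : ℝ) : ℂ) + t * I)) := summ_gg a h _ hs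
  have h2 : ∀ n, (term (gg a) (((1 + σ : ℝ) : ℂ) + t * I) n).re =
      w σ n * (a n * (n : ℂ) ^ (-(t * I))).re := by
    intro n
    rw [term_gg, Complex.re_ofReal_mul]
  refine ⟨?_, ?_⟩
  · have := Complex.reCLM.summable h1
    refine this.congr fun n => ?_
    rw [Complex.reCLM_apply, h2]
  · unfold LSeries
    rw [Complex.re_tsum h1]
    exact tsum_congr h2

/-! ### Dirichlet characters -/

section chars

variable {q : ℕ} [NeZero q] (ψ : DirichletCharacter ℂ q)

omit [NeZero q] in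
theorem summ_char (s : ℂ) (hs : 1 < s.re) :
    LSeriesSummable (fun n => ψ (n : ZMod q) * (Λ n : ℂ)) s :=
  DirichletCharacter.LSeriesSummable_twist_vonMangoldt ψ hs

theorem log_char : ∃ K : ℝ, ∀ s : ℂ, 1 < s.re → Real.log ‖DirichletCharacter.LFunction ψ s‖ =
    K + (LSeries (gg (fun n => ψ (n : ZMod q))) s).re := by
  refine log_norm _ (summ_char ψ) _ ?_ ?_ ?_
  · intro s hs
    refine DirichletCharacter.differentiableAt_LFunction ψ s (Or.inl ?_)
    rintro rfl
    simp at hs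
  · intro s hs
    refine DirichletCharacter.LFunction_ne_zero_of_one_le_re ψ (Or.inr ?_) hs.le
    rintro rfl
    simp at hs
  · intro s hs
    have h1 := DirichletCharacter.LSeries_twist_vonMangoldt_eq ψ hs
    rw [DirichletCharacter.deriv_LFunction_eq_deriv_LSeries ψ hs,
      DirichletCharacter.LFunction_eq_LSeries ψ hs]
    have h2 : LSeries (fun n => ψ (n : ZMod q) * (Λ n : ℂ)) s =
      - deriv (LSeries fun n => ψ (n : ZMod q)) s / LSeries (fun n => ψ (n : ZMod q)) s := h1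
    rw [h2]
    ring

/-- regular case: upper bound -/
theorem char_upper (u : ℝ) (hu : u ≠ 0) : ∃ C : ℝ, ∀ᶠ σ : ℝ in 𝓝[>] 0,
    ∑' n, w σ n * (ψ (n : ZMod q) * (n : ℂ) ^ (-(u * I))).re ≤ C := by
  obtain ⟨K, hK⟩ := log_char ψ
  have hne : (1 : ℂ) + u * I ≠ 1 := by
    intro h
    have := congrArg Complex.im h
    simp at this
    exact hu this
  have hc : ContinuousAt (DirichletCharacter.LFunction ψ) ((1 : ℂ) + u * I) :=
    (DirichletCharacter.differentiableAt_LFunction ψ _ (Or.inl hne)).continuousAt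
  have ht : Tendsto (fun σ : ℝ => ((1 + σ : ℝ) : ℂ) + u * I) (𝓝[>] 0) (𝓝 ((1 : ℂ) + u * I)) := by
    have : Continuous (fun σ : ℝ => ((1 + σ : ℝ) : ℂ) + u * I) := by fun_prop
    have h0 := this.tendsto 0
    simp only [add_zero, Complex.ofReal_one] at h0
    exact h0.mono_left nhdsWithin_le_nhds
  have h1 : Tendsto (fun σ : ℝ => ‖DirichletCharacter.LFunction ψ (((1 + σ : ℝ) : ℂ) + u * I)‖)
      (𝓝[>] 0) (𝓝 ‖DirichletCharacter.LFunction ψ ((1 : ℂ) + u * I)‖) := (hc.tendsto.comp ht).norm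
  refine ⟨Real.log (‖DirichletCharacter.LFunction ψ ((1 : ℂ) + u * I)‖ + 1) - K, ?_⟩
  filter_upwards [h1.eventually (gt_mem_nhds (lt_add_one _)), self_mem_nhdsWithin] with σ h2 hσ
  have hs : 1 < (((1 + σ : ℝ) : ℂ) + u * I).re := by simpa using hσ
  have h3 := hK _ hs
  rw [(re_gg _ (summ_char ψ) σ u hσ).2] at h3
  have h4 : DirichletCharacter.LFunction ψ (((1 + σ : ℝ) : ℂ) + u * I) ≠ 0 := by
    refine DirichletCharacter.LFunction_ne_zero_of_one_le_re ψ (Or.inr ?_) hs.le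
    intro h
    rw [h] at hs
    simp at hs
  have h5 : Real.log ‖DirichletCharacter.LFunction ψ (((1 + σ : ℝ) : ℂ) + u * I)‖ ≤
      Real.log (‖DirichletCharacter.LFunction ψ ((1 : ℂ) + u * I)‖ + 1) :=
    Real.log_le_log (norm_pos_iff.2 h4) h2.le
  linarith

end chars

/-- the trivial character -/
theorem triv (q : ℕ) [NeZero q] : ∃ C : ℝ, ∀ᶠ σ : ℝ in 𝓝[>] 0,
    |∑' n, w σ n * ((1 : DirichletCharacter ℂ q) (n : ZMod q) * (n : ℂ) ^ (-((0 : ℝ) * I))).re -
      Real.log (1 / σ)| ≤ C := by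
  obtain ⟨K, hK⟩ := log_char (1 : DirichletCharacter ℂ q)
  have hres := DirichletCharacter.LFunctionTrivChar_residue_one (N := q)
  set c : ℂ := ∏ p ∈ q.primeFactors, (1 - (p : ℂ)⁻¹) with hc
  have hc0 : c ≠ 0 := by
    rw [hc, Finset.prod_ne_zero_iff]
    intro p hp
    have hp2 : 2 ≤ p := (Nat.prime_of_mem_primeFactors hp).two_le
    rw [sub_ne_zero]
    intro h
    have h2 : (p : ℂ) = 1 := by
      have := congrArg (fun z => z⁻¹) h
      simpa using this.symm
    have h3 : p = 1 := by exact_mod_cast h2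
    omega
  have ht : Tendsto (fun σ : ℝ => ((1 + σ : ℝ) : ℂ) + (0 : ℝ) * I) (𝓝[>] 0) (𝓝[≠] (1 : ℂ)) := by
    refine tendsto_nhdsWithin_iff.2 ⟨?_, ?_⟩
    · have : Continuous (fun σ : ℝ => ((1 + σ : ℝ) : ℂ) + (0 : ℝ) * I) := by fun_prop
      have h0 := this.tendsto 0
      simp only [add_zero, Complex.ofReal_one, Complex.ofReal_zero, zero_mul] at h0
      refine (tendsto_congr fun σ => ?_).1 (h0.mono_left nhdsWithin_le_nhds)
      simp
    · filter_upwards [self_mem_nhdsWithin] with σ hσ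
      simp only [mem_compl_iff, mem_singleton_iff]
      intro h
      have := congrArg Complex.re h
      simp at this
      exact (ne_of_gt hσ) this
  have h1 := (hres.comp ht).norm
  have h2 := ((Real.continuousAt_log (norm_ne_zero_iff.2 hc0)).tendsto.comp h1)
  refine ⟨|Real.log ‖c‖| + |K| + 1, ?_⟩
  have h3 := h2.eventually (Metric.ball_mem_nhds _ one_pos)
  filter_upwards [h3, self_mem_nhdsWithin] with σ h4 hσ
  have hσ' : (0 : ℝ) < σ := hσ
  have hs : 1 < (((1 + σ : ℝ) : ℂ) + (0 : ℝ) * I).re := by simpa using hσ'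
  have h5 := hK _ hs
  rw [(re_gg _ (summ_char 1) σ 0 hσ').2] at h5
  have h6 : DirichletCharacter.LFunction (1 : DirichletCharacter ℂ q)
      (((1 + σ : ℝ) : ℂ) + (0 : ℝ) * I) ≠ 0 := by
    refine DirichletCharacter.LFunction_ne_zero_of_one_le_re 1 (Or.inr ?_) hs.le
    intro h
    rw [h] at hs
    simp at hs
  simp only [Function.comp_apply] at h4
  have e1 : (((1 + σ : ℝ) : ℂ) + (0 : ℝ) * I) - 1 = (σ : ℂ) := by
    push_cast; ring
  rw [e1, norm_mul, Complex.norm_real, Real.norm_of_nonneg hσ'.le,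
    Real.log_mul hσ'.ne' (norm_ne_zero_iff.2 h6)] at h4
  have h7 : Real.log ‖DirichletCharacter.LFunction (1 : DirichletCharacter ℂ q)
      (((1 + σ : ℝ) : ℂ) + (0 : ℝ) * I)‖ = K + _ := h5
  rw [h7] at h4
  rw [one_div, Real.log_inv]
  have h8 := abs_lt.1 h4
  rw [abs_le]
  have h9 := abs_le.1 (le_refl |Real.log ‖c‖|)
  have h10 := abs_le.1 (le_refl |K|)
  constructor <;> linarith [h8.1, h8.2, h9.1, h9.2, h10.1, h10.2]

/-- the pointwise inequality -/
theorem ptw {z : ℂ} (hz : ‖z‖ = 1) (c : ℝ) :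
    2 * (1 : ℝ) - 2 * (z ^ 2).re ≤ 4 * (1 + 2 * (z * (c : ℂ)).re + c ^ 2) := by
  have h1 : z.re ^ 2 + z.im ^ 2 = 1 := by
    have := Complex.sq_norm z
    rw [hz, Complex.normSq_apply] at this
    nlinarith
  have h2 : (z ^ 2).re = z.re ^ 2 - z.im ^ 2 := by
    rw [pow_two, Complex.mul_re]; ring
  have h3 : (z * (c : ℂ)).re = z.re * c := by
    rw [Complex.mul_re]; simp
  rw [h2, h3]
  nlinarith [sq_nonneg (c + z.re)]

theorem t_nzr (_h1 : W388.StId1) (hs : W388.StSel) (hd : W388.StDir) : W388.StNzr := by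
  intro N hN lam hlam hRS q _ χ F hF hFs s hs1 hst hF0
  set t : ℝ := s.im with ht
  have hst' : s = (1 : ℂ) + t * I := by
    apply Complex.ext
    · simp [hs1]
    · simp [ht]
  obtain ⟨-, hsel1, C₁, hsel2⟩ := hs N hN lam hlam hRS
  obtain ⟨A, -, -, -, hdir⟩ := hd N hN lam hlam hRS
  obtain ⟨-, hne, hlog, -, -, -⟩ := hdir q χ F hFs
  set c : ℕ → ℝ := W388.cS N lam with hc
  set a : ℕ → ℂ := fun n => χ (n : ZMod q) * (c n : ℂ) with ha
  -- summability
  have hΛs : ∀ σ : ℝ, 0 < σ → Summable (fun n : ℕ => Λ n * (n : ℝ) ^ (-(1 + σ))) := by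
    intro σ hσ
    have h1 := (ArithmeticFunction.LSeriesSummable_vonMangoldt
      (s := ((1 + σ : ℝ) : ℂ)) (by simpa using hσ)).norm
    refine h1.congr fun n => ?_
    rw [LSeries.norm_term_eq]
    rcases eq_or_ne n 0 with rfl | hn
    · simp
    · rw [if_neg hn, Complex.norm_real, Real.norm_of_nonneg ArithmeticFunction.vonMangoldt_nonneg,
        Complex.ofReal_re, Real.rpow_neg (Nat.cast_nonneg n), div_eq_mul_inv]
  have hchi : ∀ n : ℕ, ‖χ (n : ZMod q)‖ ≤ 1 := fun n => χ.norm_le_one _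
  have hsa : ∀ s : ℂ, 1 < s.re → LSeriesSummable (fun n => a n * (Λ n : ℂ)) s := by
    intro s hs
    have hσ : 0 < s.re - 1 := by linarith
    refine Summable.of_norm_bounded
      (g := fun n : ℕ => Λ n * (n : ℝ) ^ (-(1 + (s.re - 1))) +
        Λ n * c n ^ 2 * (n : ℝ) ^ (-(1 + (s.re - 1)))) ((hΛs _ hσ).add (hsel1 _ hσ)) ?_
    intro n
    have hΛ : 0 ≤ Λ n := ArithmeticFunction.vonMangoldt_nonneg
    rw [LSeries.norm_term_eq]
    rcases eq_or_ne n 0 with rfl | hn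
    · simp
    · rw [if_neg hn, norm_mul, Complex.norm_real, Real.norm_of_nonneg hΛ, div_eq_mul_inv,
        ← Real.rpow_neg (Nat.cast_nonneg n)]
      have e : -(1 + (s.re - 1)) = -s.re := by ring
      rw [e]
      have h2 : ‖a n‖ ≤ 1 + c n ^ 2 := by
        rw [ha]
        simp only [norm_mul, Complex.norm_real, Real.norm_eq_abs]
        have h3 := hchi n
        have h4 : |c n| ^ 2 = c n ^ 2 := sq_abs _
        nlinarith [abs_nonneg (c n), norm_nonneg (χ (n : ZMod q)), sq_nonneg (|c n| - 1)]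
      have h5 : 0 ≤ (n : ℝ) ^ (-s.re) := Real.rpow_nonneg (Nat.cast_nonneg n) _
      have h6 : ‖a n‖ * Λ n * (n : ℝ) ^ (-s.re) ≤ (1 + c n ^ 2) * Λ n * (n : ℝ) ^ (-s.re) := by
        gcongr
      calc ‖a n‖ * Λ n * (n : ℝ) ^ (-s.re) ≤ (1 + c n ^ 2) * Λ n * (n : ℝ) ^ (-s.re) := h6
        _ = _ := by ring
  -- the formula for log |F|
  obtain ⟨K, hK⟩ := log_norm a hsa F (fun s _ => hF s) hne (by
    intro s hs
    rw [hlog s hs]
    unfold LSeries
    congr 1
    refine tsum_congr fun n => ?_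
    rcases eq_or_ne n 0 with rfl | hn
    · simp
    · rw [LSeries.term_of_ne_zero hn, Complex.cpow_neg, ha]
      simp only
      rw [div_eq_mul_inv])
  -- F is O(σ)
  have hFO : ∃ C : ℝ, ∀ᶠ σ : ℝ in 𝓝[>] 0,
      ∑' n, w σ n * (a n * (n : ℂ) ^ (-(t * I))).re ≤ C - Real.log (1 / σ) := by
    have h1 : HasDerivAt F (deriv F s) s := (hF s).hasDerivAt
    have h2 := h1.isBigO_sub
    obtain ⟨M, hM⟩ := h2.bound
    have htd : Tendsto (fun σ : ℝ => ((1 + σ : ℝ) : ℂ) + t * I) (𝓝[>] 0) (𝓝 s) := by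
      have : Continuous (fun σ : ℝ => ((1 + σ : ℝ) : ℂ) + t * I) := by fun_prop
      have h0 := this.tendsto 0
      simp only [add_zero, Complex.ofReal_one] at h0
      rw [← hst'] at h0
      exact h0.mono_left nhdsWithin_le_nhds
    have h3 := htd.eventually hM
    refine ⟨Real.log (|M| + 1) - K, ?_⟩
    filter_upwards [h3, self_mem_nhdsWithin] with σ h4 hσ
    have hσ' : (0 : ℝ) < σ := hσ
    have hre : 1 < (((1 + σ : ℝ) : ℂ) + t * I).re := by simpa using hσ'
    have h5 := hK _ hre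
    rw [(re_gg a hsa σ t hσ').2] at h5
    rw [hF0, sub_zero, hst'] at h4
    have e1 : (((1 + σ : ℝ) : ℂ) + t * I) - (1 + t * I) = (σ : ℂ) := by push_cast; ring
    rw [e1, Complex.norm_real, Real.norm_of_nonneg hσ'.le] at h4
    have h6 : ‖F (((1 + σ : ℝ) : ℂ) + t * I)‖ ≤ (|M| + 1) * σ := by
      refine h4.trans ?_
      have := le_abs_self M
      nlinarith
    have h7 := Real.log_le_log (norm_pos_iff.2 (hne _ hre)) h6
    rw [Real.log_mul (by positivity) hσ'.ne'] at h7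
    rw [one_div, Real.log_inv]
    linarith
  obtain ⟨C₂, hC₂⟩ := hFO
  -- characters
  obtain ⟨C₃, hC₃⟩ := char_upper (χ ^ 2) (2 * t) (by
    simpa using hst)
  obtain ⟨C₄, hC₄⟩ := triv q
  obtain ⟨C₅, hC₅⟩ := triv 1
  have hlt : Tendsto (fun σ : ℝ => Real.log (1 / σ)) (𝓝[>] 0) atTop := by
    have : Tendsto (fun σ : ℝ => 1 / σ) (𝓝[>] 0) atTop := by
      simpa using tendsto_inv_nhdsGT_zero (𝕜 := ℝ)
    exact Real.tendsto_log_atTop.comp this
  have h01 : ∀ᶠ σ : ℝ in 𝓝[>] 0, σ ≤ 1 := by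
    have : Iic (1 : ℝ) ∈ 𝓝 (0 : ℝ) := Iic_mem_nhds zero_lt_one
    exact mem_nhdsWithin_of_mem_nhds this
  have hbig := hlt.eventually (eventually_gt_atTop
    (C₄ + C₃ + 2 * C₅ + 4 * C₂ + 2 * C₁))
  obtain ⟨σ, hσ1, hσ2, hσ3, hσ4, hσ5, hσ6, hσ7⟩ := (hC₂.and (hC₃.and (hC₄.and (hC₅.and
    (h01.and (hbig.and self_mem_nhdsWithin)))))).exists
  have hσ : (0 : ℝ) < σ := hσ7
  have hs1' := (re_gg a hsa σ t hσ).1
  have hs2' := (re_gg _ (summ_char (χ ^ 2)) σ (2 * t) hσ).1
  have hs3' := (re_gg _ (summ_char (1 : DirichletCharacter ℂ q)) σ 0 hσ).1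
  have hs4' := (re_gg _ (summ_char (1 : DirichletCharacter ℂ 1)) σ 0 hσ).1
  have hs5' : Summable (fun n : ℕ => w σ n * c n ^ 2) := by
    refine Summable.of_norm_bounded (g := fun n : ℕ => (Real.log 2)⁻¹ *
      (Λ n * c n ^ 2 * (n : ℝ) ^ (-(1 + σ)))) ((hsel1 σ hσ).mul_left _) ?_
    intro n
    rw [Real.norm_of_nonneg (mul_nonneg (w_nonneg _ _) (sq_nonneg _))]
    have hΛ : 0 ≤ Λ n := ArithmeticFunction.vonMangoldt_nonneg
    rcases Nat.lt_or_ge n 2 with hn | hn
    · interval_cases n <;> simp [w]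
    · have hlog' : Real.log 2 ≤ Real.log n := Real.log_le_log two_pos (by exact_mod_cast hn)
      have h2 : 0 < Real.log 2 := Real.log_pos one_lt_two
      have h3 : (Real.log n)⁻¹ ≤ (Real.log 2)⁻¹ := inv_anti₀ h2 hlog'
      unfold w
      have h5 : 0 ≤ (n : ℝ) ^ (-(1 + σ)) := Real.rpow_nonneg (Nat.cast_nonneg n) _
      calc Λ n / Real.log n * (n : ℝ) ^ (-(1 + σ)) * c n ^ 2
          = (Real.log n)⁻¹ * (Λ n * c n ^ 2 * (n : ℝ) ^ (-(1 + σ))) := by
            rw [div_eq_mul_inv]; ring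
        _ ≤ _ := by gcongr
  have hC6 : ∑' n : ℕ, w σ n * c n ^ 2 ≤ Real.log (1 / σ) + C₁ := by
    refine le_trans (le_of_eq (tsum_congr fun n => ?_)) (hsel2 σ hσ hσ5)
    unfold w
    ring
  -- the inequality of sums
  have hmain : ∑' n, (2 * (w σ n * ((1 : DirichletCharacter ℂ q) (n : ZMod q) *
        (n : ℂ) ^ (-((0 : ℝ) * I))).re) -
      2 * (w σ n * ((χ ^ 2) (n : ZMod q) * (n : ℂ) ^ (-((2 * t : ℝ) * I))).re)) ≤
      ∑' n, (4 * (w σ n * ((1 : DirichletCharacter ℂ 1) (n : ZMod 1) *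
        (n : ℂ) ^ (-((0 : ℝ) * I))).re) + 8 * (w σ n * (a n * (n : ℂ) ^ (-(t * I))).re) +
        4 * (w σ n * c n ^ 2)) := by
    refine Summable.tsum_le_tsum ?_ ((hs3'.mul_left 2).sub (hs2'.mul_left 2))
      (((hs4'.mul_left 4).add (hs1'.mul_left 8)).add (hs5'.mul_left 4))
    intro n
    have hw := w_nonneg σ n
    rcases eq_or_ne n 0 with rfl | hn
    · simp [w]
    have hn' : (n : ℂ) ≠ 0 := by exact_mod_cast hn
    have e1 : ((1 : DirichletCharacter ℂ 1) (n : ZMod 1) * (n : ℂ) ^ (-((0 : ℝ) * I))).re = 1 := by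
      have : (1 : DirichletCharacter ℂ 1) (n : ZMod 1) = 1 :=
        MulChar.one_apply (isUnit_of_subsingleton _)
      rw [this]
      simp
    rw [e1]
    by_cases hu : IsUnit (n : ZMod q)
    · have e2 : ((1 : DirichletCharacter ℂ q) (n : ZMod q) * (n : ℂ) ^ (-((0 : ℝ) * I))).re = 1 := by
        rw [MulChar.one_apply hu]
        simp
      rw [e2]
      set z : ℂ := χ (n : ZMod q) * (n : ℂ) ^ (-(t * I)) with hz
      have hz1 : ‖z‖ = 1 := by
        rw [hz, norm_mul]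
        have h1 : ‖χ (n : ZMod q)‖ = 1 := by
          obtain ⟨u, hu'⟩ := hu
          rw [← hu']
          exact χ.unit_norm_eq_one u
        rw [h1, one_mul]
        have h2 : (n : ℂ) = ((n : ℝ) : ℂ) := by simp
        rw [h2, Complex.norm_cpow_eq_rpow_re_of_pos (by positivity)]
        simp
      have e3 : (χ ^ 2) (n : ZMod q) * (n : ℂ) ^ (-((2 * t : ℝ) * I)) = z ^ 2 := by
        rw [hz, mul_pow, ← Complex.cpow_nat_mul]
        congr 1
        · rw [MulChar.pow_apply' _ two_ne_zero]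
        · congr 1
          push_cast
          ring
      have e4 : a n * (n : ℂ) ^ (-(t * I)) = z * (c n : ℂ) := by
        rw [hz, ha]
        ring
      rw [e3, e4]
      have := ptw hz1 (c n)
      nlinarith
    · have e2 : ((1 : DirichletCharacter ℂ q) (n : ZMod q) * (n : ℂ) ^ (-((0 : ℝ) * I))).re = 0 := by
        rw [MulChar.map_nonunit _ hu]
        simp
      have e3 : ((χ ^ 2) (n : ZMod q) * (n : ℂ) ^ (-((2 * t : ℝ) * I))).re = 0 := by
        rw [MulChar.map_nonunit _ hu]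
        simp
      have e4 : (a n * (n : ℂ) ^ (-(t * I))).re = 0 := by
        rw [ha]
        simp only
        rw [MulChar.map_nonunit _ hu]
        simp
      rw [e2, e3, e4]
      have := mul_nonneg hw (sq_nonneg (c n))
      linarith
  rw [(hs3'.mul_left 2).tsum_sub (hs2'.mul_left 2),
    ((hs4'.mul_left 4).add (hs1'.mul_left 8)).tsum_add (hs5'.mul_left 4),
    (hs4'.mul_left 4).tsum_add (hs1'.mul_left 8), tsum_mul_left, tsum_mul_left, tsum_mul_left,
    tsum_mul_left, tsum_mul_left] at hmain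
  have h8 := abs_le.1 hσ3
  have h9 := abs_le.1 hσ4
  linarith [h8.1, h8.2, h9.1, h9.2]

end W361TW.Nzr
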